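import Mathlib

/-!
# Weak separation of a closed cone from the origin versus bounded base (Gong 1995)

We answer Q1: yes, there is a normed space with a (nontrivial) closed cone which satisfies the
weak separation condition but has no bounded base.  More precisely, a normed space contains such
a cone if and only if it is not complete.
-/

open Set Metric Filter Topology

namespace Pool.Agent.Results.MP_388f8c_an.ClosedConeAnswer

universe u

/-- A cone in the sense of the problem: nonempty, stable under sums and under multiplication by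
nonnegative reals, and pointed (`C ∩ (-C) = {0}`). -/
structure IsPointedCone {X : Type u} [NormedAddCommGroup X] [NormedSpace ℝ X]
    (C : Set X) : Prop where
  nonempty : C.Nonempty
  add_mem : ∀ x ∈ C, ∀ y ∈ C, x + y ∈ C
  smul_mem : ∀ r : ℝ, 0 ≤ r → ∀ x ∈ C, r • x ∈ C
  pointed : C ∩ (-C) = {0}

/-- `B` is a base of `C`: a nonempty convex subset of `C` whose norm closure misses `0`, such that
every nonzero `c ∈ C` is `λ b` for exactly one pair `λ > 0`, `b ∈ B`. -/
structure IsBase {X : Type u} [NormedAddCommGroup X] [NormedSpace ℝ X]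
    (C B : Set X) : Prop where
  nonempty : B.Nonempty
  convex : Convex ℝ B
  subset : B ⊆ C
  zero_notMem : (0 : X) ∉ closure B
  existsUnique : ∀ c ∈ C, c ≠ 0 → ∃! p : ℝ × X, 0 < p.1 ∧ p.2 ∈ B ∧ c = p.1 • p.2

/-- `C` has a bounded base. -/
def HasBoundedBase {X : Type u} [NormedAddCommGroup X] [NormedSpace ℝ X] (C : Set X) : Prop :=
  ∃ B : Set X, IsBase C B ∧ Bornology.IsBounded B

/-- Condition `(∗)`: for every `ε ∈ (0,1)`, `0` is not in the weak closure of `C \ ε B_X`. -/
def WeaklySeparated {X : Type u} [NormedAddCommGroup X] [NormedSpace ℝ X] (C : Set X) : Prop :=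
  ∀ ε ∈ Ioo (0 : ℝ) 1,
    (0 : WeakSpace ℝ X) ∉ closure (toWeakSpace ℝ X '' (C \ closedBall (0 : X) ε))

section General

variable {X : Type u} [NormedAddCommGroup X] [NormedSpace ℝ X] {C : Set X}

lemma IsPointedCone.zero_mem (hC : IsPointedCone C) : (0 : X) ∈ C := by
  have : (0 : X) ∈ C ∩ (-C) := by rw [hC.pointed]; rfl
  exact this.1

lemma IsPointedCone.eq_zero (hC : IsPointedCone C) {x : X} (hx : x ∈ C) (hx' : -x ∈ C) :
    x = 0 := by
  have : x ∈ C ∩ (-C) := ⟨hx, by simpa using hx'⟩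
  rw [hC.pointed] at this
  simpa using this

/-- A bounded base gives a continuous linear functional bounded below by the norm on the cone. -/
lemma exists_functional_of_boundedBase (h : HasBoundedBase C) :
    ∃ (f : X →L[ℝ] ℝ) (δ : ℝ), 0 < δ ∧ ∀ c ∈ C, δ * ‖c‖ ≤ f c := by
  obtain ⟨B, hB, hbd⟩ := h
  obtain ⟨f, u, hu0, hub⟩ :=
    geometric_hahn_banach_point_closed (x := (0 : X)) hB.convex.closure isClosed_closure
      hB.zero_notMem
  rw [map_zero] at hu0
  obtain ⟨R, hRpos, hR⟩ := hbd.exists_pos_norm_le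
  refine ⟨f, u / R, div_pos hu0 hRpos, fun c hc => ?_⟩
  by_cases hc0 : c = 0
  · simp [hc0]
  obtain ⟨⟨t, b⟩, ⟨ht, hb, hcb⟩, -⟩ := hB.existsUnique c hc hc0
  simp only at ht hb hcb
  subst hcb
  rw [norm_smul, Real.norm_of_nonneg ht.le, map_smul, smul_eq_mul]
  have h1 : u < f b := hub b (subset_closure hb)
  have h2 : ‖b‖ ≤ R := hR b hb
  calc u / R * (t * ‖b‖) = t * (u * (‖b‖ / R)) := by ring
    _ ≤ t * (u * 1) := by
        gcongr
        exact (div_le_one hRpos).2 h2
    _ ≤ t * f b := by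
        gcongr
        linarith

/-- A continuous linear functional bounded below by the norm on a nontrivial cone gives a bounded
base. -/
lemma boundedBase_of_functional (hC : IsPointedCone C) (hne : C ≠ {0})
    (f : X →L[ℝ] ℝ) {δ : ℝ} (hδ : 0 < δ) (hf : ∀ c ∈ C, δ * ‖c‖ ≤ f c) :
    HasBoundedBase C := by
  have hpos : ∀ c ∈ C, c ≠ 0 → 0 < f c := fun c hc hc0 =>
    lt_of_lt_of_le (mul_pos hδ (norm_pos_iff.2 hc0)) (hf c hc)
  refine ⟨{c | c ∈ C ∧ f c = 1}, ⟨?_, ?_, fun c hc => hc.1, ?_, ?_⟩, ?_⟩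
  · obtain ⟨c, hc, hc0⟩ : ∃ c ∈ C, c ≠ 0 := by
      by_contra hcon
      push Not at hcon
      exact hne (Subset.antisymm (fun c hc => hcon c hc) (by simpa using hC.zero_mem))
    refine ⟨(f c)⁻¹ • c, hC.smul_mem _ (inv_nonneg.2 (hpos c hc hc0).le) _ hc, ?_⟩
    rw [map_smul, smul_eq_mul, inv_mul_cancel₀ (hpos c hc hc0).ne']
  · intro x hx y hy a b ha hb hab
    refine ⟨hC.add_mem _ (hC.smul_mem a ha x hx.1) _ (hC.smul_mem b hb y hy.1), ?_⟩
    rw [map_add, map_smul, map_smul, hx.2, hy.2]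
    simpa using hab
  · intro h0
    have hsub : closure {c | c ∈ C ∧ f c = 1} ⊆ {c | f c = 1} :=
      closure_minimal (fun c hc => hc.2) (isClosed_eq f.continuous continuous_const)
    have := hsub h0
    simp at this
  · intro c hc hc0
    have hfc := hpos c hc hc0
    refine ⟨(f c, (f c)⁻¹ • c), ⟨hfc, ⟨hC.smul_mem _ (inv_nonneg.2 hfc.le) _ hc, ?_⟩, ?_⟩, ?_⟩
    · simp only [map_smul, smul_eq_mul]
      exact inv_mul_cancel₀ hfc.ne'
    · simp only
      rw [smul_smul, mul_inv_cancel₀ hfc.ne', one_smul]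
    · rintro ⟨t, b⟩ ⟨ht, ⟨hb, hfb⟩, hcb⟩
      simp only at ht hb hfb hcb
      have h1 : f c = t := by rw [hcb, map_smul, hfb, smul_eq_mul, mul_one]
      have h2 : (f c)⁻¹ • c = b := by
        rw [h1, hcb, smul_smul, inv_mul_cancel₀ ht.ne', one_smul]
      simp [h1, ← h2]
  · refine (isBounded_iff_forall_norm_le).2 ⟨1 / δ, fun c hc => ?_⟩
    rw [le_div_iff₀ hδ]
    have := hf c hc.1
    rw [hc.2] at this
    linarith

/-- If finitely many continuous functionals control the norm on `C`, then `C` satisfies `(∗)`. -/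
lemma weaklySeparated_of_pair (f g : X →L[ℝ] ℝ)
    (h : ∀ c ∈ C, ‖c‖ ≤ |f c| + |g c|) : WeaklySeparated C := by
  rintro ε ⟨hε, -⟩ hmem
  let f' : WeakSpace ℝ X → ℝ := fun x => f ((toWeakSpace ℝ X).symm x)
  let g' : WeakSpace ℝ X → ℝ := fun x => g ((toWeakSpace ℝ X).symm x)
  have hf' : Continuous f' := WeakBilin.eval_continuous (topDualPairing ℝ X).flip f
  have hg' : Continuous g' := WeakBilin.eval_continuous (topDualPairing ℝ X).flip g
  have hopen : IsOpen {x : WeakSpace ℝ X | |f' x| + |g' x| < ε} :=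
    isOpen_lt (by fun_prop) continuous_const
  have h0 : (0 : WeakSpace ℝ X) ∈ {x : WeakSpace ℝ X | |f' x| + |g' x| < ε} := by
    simp only [mem_ofPred_eq, f', g', map_zero, abs_zero, add_zero]
    exact hε
  obtain ⟨y, hy1, ⟨c, ⟨hc, hcε⟩, rfl⟩⟩ := mem_closure_iff.1 hmem _ hopen h0
  simp only [mem_ofPred_eq, f', g', LinearEquiv.symm_apply_apply] at hy1
  simp only [mem_closedBall, dist_zero_right, not_le] at hcε
  linarith [h c hc]

/-- From `(∗)` we extract a continuous linear map to a finite-dimensional space which is bounded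
below on the cone. -/
lemma exists_finite_map_of_weaklySeparated (hC : IsPointedCone C) (h : WeaklySeparated C) :
    ∃ (s : Finset (X →L[ℝ] ℝ)) (T : X →L[ℝ] (s → ℝ)) (r : ℝ), 0 < r ∧
      ∀ c ∈ C, r * ‖c‖ ≤ ‖T c‖ := by
  have h0 := h (1 / 2) ⟨by norm_num, by norm_num⟩
  have hn : (closure (toWeakSpace ℝ X '' (C \ closedBall (0 : X) (1 / 2))))ᶜ ∈
      𝓝 (0 : WeakSpace ℝ X) := isClosed_closure.isOpen_compl.mem_nhds h0
  obtain ⟨V, hV, hVsub⟩ :=
    ((LinearMap.hasBasis_weakBilin (topDualPairing ℝ X).flip).mem_iff).1 hn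
  obtain ⟨s, r, hr, rfl⟩ := (SeminormFamily.basisSets_iff _).1 hV
  refine ⟨s, ContinuousLinearMap.pi fun f => (f : X →L[ℝ] ℝ), r, hr, fun c hc => ?_⟩
  by_cases hc0 : c = 0
  · simp [hc0]
  have hnc : 0 < ‖c‖ := norm_pos_iff.2 hc0
  by_contra hcon
  push Not at hcon
  have hmem : toWeakSpace ℝ X (‖c‖⁻¹ • c) ∈
      (s.sup (topDualPairing ℝ X).flip.toSeminormFamily).ball (0 : WeakSpace ℝ X) r := by
    refine (Seminorm.mem_ball_zero _).2 (Seminorm.finset_sup_apply_lt hr ?_)
    intro f hf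
    have h1 : ‖(ContinuousLinearMap.pi fun f : s => (f : X →L[ℝ] ℝ)) c ⟨f, hf⟩‖ < r * ‖c‖ :=
      lt_of_le_of_lt (norm_le_pi_norm _ _) hcon
    have h2 : ‖f c‖ < r * ‖c‖ := h1
    have h3 : ‖f (‖c‖⁻¹ • c)‖ < r := by
      rw [map_smul, norm_smul, norm_inv, norm_norm, inv_mul_lt_iff₀ hnc]
      linarith
    exact h3
  have := hVsub hmem
  apply this
  apply subset_closure
  refine ⟨‖c‖⁻¹ • c, ⟨hC.smul_mem _ (inv_nonneg.2 hnc.le) _ hc, ?_⟩, rfl⟩
  simp only [mem_closedBall, dist_zero_right, not_le, norm_smul, norm_inv, norm_norm]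
  rw [inv_mul_cancel₀ hnc.ne']
  norm_num

/-- A closed pointed convex cone in a finite-dimensional space has a functional bounded below by
the norm. -/
lemma exists_pos_functional {E : Type*} [NormedAddCommGroup E] [NormedSpace ℝ E]
    [FiniteDimensional ℝ E] {K : Set E} (hK : IsClosed K) (h0 : (0 : E) ∈ K)
    (hadd : ∀ x ∈ K, ∀ y ∈ K, x + y ∈ K) (hsmul : ∀ r : ℝ, 0 ≤ r → ∀ x ∈ K, r • x ∈ K)
    (hpt : ∀ x ∈ K, -x ∈ K → x = 0) :
    ∃ (g : E →L[ℝ] ℝ) (δ : ℝ), 0 < δ ∧ ∀ y ∈ K, δ * ‖y‖ ≤ g y := by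
  classical
  have hconv : Convex ℝ K := by
    intro x hx y hy a b ha hb _
    exact hadd _ (hsmul a ha x hx) _ (hsmul b hb y hy)
  -- for each nonzero point of `K` a functional nonnegative on `K` and positive at the point
  have key : ∀ y ∈ K, y ≠ 0 → ∃ g : E →L[ℝ] ℝ, (∀ z ∈ K, 0 ≤ g z) ∧ 0 < g y := by
    intro y hy hy0
    have hny : -y ∉ K := fun h => hy0 (hpt y hy h)
    obtain ⟨f, u, hfu, huy⟩ := geometric_hahn_banach_closed_point hconv hK hny
    have hu0 : 0 < u := by simpa using hfu 0 h0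
    have hnonpos : ∀ z ∈ K, f z ≤ 0 := by
      intro z hz
      by_contra hcon
      push Not at hcon
      have h1 := hfu _ (hsmul (u / f z) (div_pos hu0 hcon).le z hz)
      rw [map_smul, smul_eq_mul, div_mul_cancel₀ _ hcon.ne'] at h1
      exact lt_irrefl _ h1
    refine ⟨-f, fun z hz => ?_, ?_⟩
    · simpa using hnonpos z hz
    · rw [map_neg] at huy
      simp only [neg_apply]
      linarith
  have hScomp : IsCompact (K ∩ sphere (0 : E) 1) := (isCompact_sphere _ _).inter_left hK
  choose! g hg0 hgpos using key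
  have hcover : ∀ y ∈ K ∩ sphere (0 : E) 1, {z | 0 < g y z} ∈ 𝓝[K ∩ sphere (0 : E) 1] y := by
    rintro y ⟨hyK, hy1⟩
    have hy0 : y ≠ 0 := by
      rintro rfl
      simp at hy1
    exact mem_nhdsWithin_of_mem_nhds
      ((isOpen_lt continuous_const (g y).continuous).mem_nhds (hgpos y hyK hy0))
  obtain ⟨t, ht, htcov⟩ := hScomp.elim_nhdsWithin_subcover _ hcover
  set G : E →L[ℝ] ℝ := ∑ y ∈ t, g y with hG
  have hGpos : ∀ z ∈ K ∩ sphere (0 : E) 1, 0 < G z := by
    intro z hz
    have hz' := htcov hz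
    simp only [mem_iUnion, exists_prop] at hz'
    obtain ⟨y, hyt, hyz⟩ := hz'
    rw [hG, sum_apply]
    refine Finset.sum_pos' (fun w hw => ?_) ⟨y, hyt, hyz⟩
    have hwS := ht w hw
    have hw0 : w ≠ 0 := by
      rintro rfl
      simpa using hwS.2
    exact hg0 w hwS.1 hw0 z hz.1
  by_cases hSne : (K ∩ sphere (0 : E) 1).Nonempty
  · obtain ⟨z0, hz0, hmin⟩ := hScomp.exists_isMinOn hSne G.continuous.continuousOn
    refine ⟨G, G z0, hGpos z0 hz0, fun y hy => ?_⟩
    by_cases hy0 : y = 0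
    · simp [hy0]
    have hny : 0 < ‖y‖ := norm_pos_iff.2 hy0
    have hmemS : ‖y‖⁻¹ • y ∈ K ∩ sphere (0 : E) 1 := by
      refine ⟨hsmul _ (inv_nonneg.2 hny.le) y hy, ?_⟩
      simp [norm_smul, inv_mul_cancel₀ hny.ne']
    have h1 : G z0 ≤ G (‖y‖⁻¹ • y) := hmin hmemS
    rw [map_smul, smul_eq_mul, inv_mul_eq_div, le_div_iff₀ hny] at h1
    exact h1
  · refine ⟨0, 1, one_pos, fun y hy => ?_⟩
    by_cases hy0 : y = 0
    · simp [hy0]
    exfalso
    apply hSne
    have hny : 0 < ‖y‖ := norm_pos_iff.2 hy0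
    refine ⟨‖y‖⁻¹ • y, hsmul _ (inv_nonneg.2 hny.le) y hy, ?_⟩
    simp [norm_smul, inv_mul_cancel₀ hny.ne']

/-- In a complete space, `(∗)` gives a functional bounded below by the norm on the closed cone. -/
lemma exists_functional_of_complete [CompleteSpace X] (hC : IsPointedCone C) (hcl : IsClosed C)
    (h : WeaklySeparated C) :
    ∃ (f : X →L[ℝ] ℝ) (δ : ℝ), 0 < δ ∧ ∀ c ∈ C, δ * ‖c‖ ≤ f c := by
  obtain ⟨s, T, r, hr, hT⟩ := exists_finite_map_of_weaklySeparated hC h
  set K : Set (s → ℝ) := closure (T '' C) with hKdef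
  have hsub : T '' C ⊆ K := subset_closure
  have h0 : (0 : s → ℝ) ∈ K := hsub ⟨0, hC.zero_mem, map_zero T⟩
  have hadd : ∀ x ∈ K, ∀ y ∈ K, x + y ∈ K := by
    intro x hx y hy
    refine map_mem_closure₂ (f := fun a b : s → ℝ => a + b) continuous_add hx hy ?_
    rintro _ ⟨a, ha, rfl⟩ _ ⟨b, hb, rfl⟩
    exact ⟨a + b, hC.add_mem a ha b hb, map_add T a b⟩
  have hsmul : ∀ t : ℝ, 0 ≤ t → ∀ x ∈ K, t • x ∈ K := by
    intro t ht x hx
    refine map_mem_closure (f := fun a : s → ℝ => t • a) (continuous_const_smul t) hx ?_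
    rintro _ ⟨a, ha, rfl⟩
    exact ⟨t • a, hC.smul_mem t ht a ha, map_smul T t a⟩
  have hpt : ∀ x ∈ K, -x ∈ K → x = 0 := by
    intro y hy hy'
    obtain ⟨u, hu, hulim⟩ := mem_closure_iff_seq_limit.1 hy
    obtain ⟨v, hv, hvlim⟩ := mem_closure_iff_seq_limit.1 hy'
    choose c hc hcu using hu
    choose d hd hdv using hv
    have hdist : ∀ n m, r * ‖c n + d m‖ ≤ ‖u n - y‖ + ‖v m - -y‖ := by
      intro n m
      calc r * ‖c n + d m‖ ≤ ‖T (c n + d m)‖ := hT _ (hC.add_mem _ (hc n) _ (hd m))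
        _ = ‖(u n - y) + (v m - -y)‖ := by
            rw [map_add, hcu, hdv]
            congr 1
            abel
        _ ≤ _ := norm_add_le _ _
    have hu0 : Tendsto (fun n => ‖u n - y‖) atTop (𝓝 0) :=
      tendsto_iff_norm_sub_tendsto_zero.1 hulim
    have hv0 : Tendsto (fun n => ‖v n - -y‖) atTop (𝓝 0) :=
      tendsto_iff_norm_sub_tendsto_zero.1 hvlim
    have hcauchy : CauchySeq c := by
      rw [Metric.cauchySeq_iff']
      intro ε hε
      have hε' : 0 < r * ε / 4 := by positivity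
      obtain ⟨N1, hN1⟩ := eventually_atTop.1 ((tendsto_order.1 hu0).2 _ hε')
      obtain ⟨N2, hN2⟩ := eventually_atTop.1 ((tendsto_order.1 hv0).2 _ hε')
      refine ⟨max N1 N2, fun n hn => ?_⟩
      have hn1 : N1 ≤ n := le_trans (le_max_left _ _) hn
      set N := max N1 N2
      have e1 := hdist n N
      have e2 := hdist N N
      have e3 := hN1 n hn1
      have e4 := hN1 N (le_max_left _ _)
      have e5 := hN2 N (le_max_right _ _)
      have e6 : ‖c n - c N‖ ≤ ‖c n + d N‖ + ‖c N + d N‖ := by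
        calc ‖c n - c N‖ = ‖(c n + d N) - (c N + d N)‖ := by congr 1; abel
          _ ≤ _ := norm_sub_le _ _
      rw [dist_eq_norm]
      have e7 : r * ‖c n - c N‖ < r * ε := by
        calc r * ‖c n - c N‖ ≤ r * (‖c n + d N‖ + ‖c N + d N‖) := by gcongr
          _ = r * ‖c n + d N‖ + r * ‖c N + d N‖ := by ring
          _ < r * ε := by linarith
      exact lt_of_mul_lt_mul_left e7 hr.le
    obtain ⟨z, hz⟩ := cauchySeq_tendsto_of_complete hcauchy
    have hzC : z ∈ C := hcl.mem_of_tendsto hz (Eventually.of_forall hc)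
    have hsum : Tendsto (fun n => c n + d n) atTop (𝓝 0) := by
      rw [tendsto_zero_iff_norm_tendsto_zero]
      have hlim : Tendsto (fun n => r⁻¹ * (‖u n - y‖ + ‖v n - -y‖)) atTop (𝓝 0) := by
        simpa using (hu0.add hv0).const_mul r⁻¹
      refine squeeze_zero (fun _ => norm_nonneg _) (fun n => ?_) hlim
      rw [← div_eq_inv_mul, le_div_iff₀ hr]
      have := hdist n n
      linarith
    have hd' : Tendsto d atTop (𝓝 (-z)) := by
      have := hsum.sub hz
      simpa using this
    have hzC' : -z ∈ C := hcl.mem_of_tendsto hd' (Eventually.of_forall hd)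
    have hz0 : z = 0 := hC.eq_zero hzC hzC'
    have hTz : Tendsto u atTop (𝓝 (T z)) := by
      have := (T.continuous.tendsto z).comp hz
      refine this.congr fun n => ?_
      exact hcu n
    have := tendsto_nhds_unique hulim hTz
    rw [this, hz0, map_zero]
  obtain ⟨g, δ, hδ, hg⟩ := exists_pos_functional isClosed_closure h0 hadd hsmul hpt
  refine ⟨g.comp T, δ * r, mul_pos hδ hr, fun c hc => ?_⟩
  calc δ * r * ‖c‖ = δ * (r * ‖c‖) := by ring
    _ ≤ δ * ‖T c‖ := by
        gcongr
        exact hT c hc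
    _ ≤ g (T c) := hg _ (hsub ⟨c, hc, rfl⟩)
    _ = (g.comp T) c := rfl

/-- In an incomplete space there is a bad closed cone. -/
lemma exists_bad_cone (hX : ¬ CompleteSpace X) :
    ∃ C : Set X, IsPointedCone C ∧ IsClosed C ∧ C ≠ {0} ∧ WeaklySeparated C ∧
      ¬ HasBoundedBase C := by
  let Y := UniformSpace.Completion X
  let ι : X →ₗᵢ[ℝ] Y := UniformSpace.Completion.toComplₗᵢ
  have hιd : DenseRange ι := UniformSpace.Completion.denseRange_coe
  -- a point of the completion outside of `X`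
  obtain ⟨c, hc⟩ : ∃ c : Y, c ∉ range ι := by
    by_contra hcon
    push Not at hcon
    apply hX
    have hcomp : IsComplete (range ι) := by
      have : range ι = univ := eq_univ_of_forall hcon
      rw [this]
      exact isComplete_univ
    have h2 : IsComplete (univ : Set X) := by
      rw [← image_univ] at hcomp
      exact (isComplete_image_iff ι.isometry.isUniformInducing).1 hcomp
    exact completeSpace_of_isComplete_univ h2
  have hc0 : c ≠ 0 := fun h => hc ⟨0, by rw [h, map_zero]⟩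
  have hnc : 0 < ‖c‖ := norm_pos_iff.2 hc0
  -- functional `g` with `g c = 1`
  obtain ⟨g0, -, hg0⟩ := exists_dual_vector ℝ c hnc.ne'
  set g : Y →L[ℝ] ℝ := ‖c‖⁻¹ • g0 with hgdef
  have hgc : g c = 1 := by
    simp [hgdef, hg0, hnc.ne']
  -- a vector outside the line through `c`
  obtain ⟨w, hw⟩ : ∃ w : Y, w ∉ Submodule.span ℝ {c} := by
    by_contra hcon
    push Not at hcon
    have : ∃ x : X, x ≠ 0 := by
      by_contra hx
      push Not at hx
      apply hc0
      have h1 : range ι ⊆ {0} := by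
        rintro _ ⟨x, rfl⟩
        simp [hx x]
      have h2 : closure (range ι) ⊆ {0} := closure_minimal h1 isClosed_singleton
      exact h2 (hιd c)
    obtain ⟨x, hx⟩ := this
    obtain ⟨t, ht⟩ := Submodule.mem_span_singleton.1 (hcon (ι x))
    have ht0 : t ≠ 0 := by
      rintro rfl
      rw [zero_smul] at ht
      apply hx
      exact ι.injective (by rw [← ht, map_zero])
    apply hc
    refine ⟨t⁻¹ • x, ?_⟩
    rw [map_smul, ← ht, smul_smul, inv_mul_cancel₀ ht0, one_smul]
  obtain ⟨f0, hf0w, hf0c⟩ : ∃ f0 : Y →L[ℝ] ℝ, f0 w ≠ 0 ∧ f0 c = 0 := by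
    have hcl : IsClosed (Submodule.span ℝ {c} : Set Y) :=
      Submodule.closed_of_finiteDimensional _
    obtain ⟨f, u, hfu, huw⟩ :=
      geometric_hahn_banach_closed_point (Submodule.span ℝ {c}).convex hcl hw
    have hu0 : 0 < u := by simpa using hfu 0 (Submodule.zero_mem _)
    refine ⟨f, (hu0.trans huw).ne', ?_⟩
    by_contra hfc
    have h1 := hfu ((u / f c) • c) (Submodule.smul_mem _ _ (Submodule.mem_span_singleton_self c))
    rw [map_smul, smul_eq_mul, div_mul_cancel₀ _ hfc] at h1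
    exact lt_irrefl _ h1
  set f : Y →L[ℝ] ℝ := (f0 w)⁻¹ • f0 with hfdef
  have hfw : f w = 1 := by simp [hfdef, hf0w]
  have hfc : f c = 0 := by simp [hfdef, hf0c]
  set M : ℝ := ‖w - g w • c‖ + 1 with hM
  have hMpos : 0 < M := by positivity
  -- the closed (nonpointed) cone in the completion
  let D : Set Y := {x | ‖x - g x • c‖ ≤ M * f x}
  have hDclosed : IsClosed D := isClosed_le (by fun_prop) (by fun_prop)
  let C : Set X := ι ⁻¹' D
  have hmemC : ∀ x : X, x ∈ C ↔ ‖ι x - g (ι x) • c‖ ≤ M * f (ι x) := fun x => Iff.rfl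
  have hCcone : IsPointedCone C := by
    refine ⟨⟨0, by simp [hmemC]⟩, ?_, ?_, ?_⟩
    · intro x hx y hy
      rw [hmemC] at hx hy ⊢
      calc ‖ι (x + y) - g (ι (x + y)) • c‖
          = ‖(ι x - g (ι x) • c) + (ι y - g (ι y) • c)‖ := by
            congr 1
            rw [map_add, map_add, add_smul]
            abel
        _ ≤ ‖ι x - g (ι x) • c‖ + ‖ι y - g (ι y) • c‖ := norm_add_le _ _
        _ ≤ M * f (ι x) + M * f (ι y) := add_le_add hx hy
        _ = M * f (ι (x + y)) := by rw [map_add, map_add]; ring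
    · intro t ht x hx
      rw [hmemC] at hx ⊢
      calc ‖ι (t • x) - g (ι (t • x)) • c‖
          = ‖t • (ι x - g (ι x) • c)‖ := by
            congr 1
            rw [map_smul, map_smul, smul_sub, smul_smul, smul_eq_mul]
        _ = t * ‖ι x - g (ι x) • c‖ := by rw [norm_smul, Real.norm_of_nonneg ht]
        _ ≤ t * (M * f (ι x)) := by gcongr
        _ = M * f (ι (t • x)) := by rw [map_smul, map_smul, smul_eq_mul]; ring
    · apply Subset.antisymm
      · rintro x ⟨hx, hx'⟩
        rw [Set.mem_neg] at hx'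
        rw [hmemC] at hx hx'
        have h1 : 0 ≤ f (ι x) := by
          have := (norm_nonneg _).trans hx
          exact nonneg_of_mul_nonneg_right this hMpos
        have h2 : f (ι x) ≤ 0 := by
          have := (norm_nonneg _).trans hx'
          have h3 := nonneg_of_mul_nonneg_right this hMpos
          rw [map_neg, map_neg] at h3
          linarith
        have h3 : f (ι x) = 0 := le_antisymm h2 h1
        rw [h3, mul_zero] at hx
        have h4 : ι x = g (ι x) • c := by
          have := norm_le_zero_iff.1 hx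
          exact sub_eq_zero.1 this
        by_cases h5 : g (ι x) = 0
        · rw [h5, zero_smul] at h4
          exact ι.injective (by rw [h4, map_zero])
        · exfalso
          apply hc
          refine ⟨(g (ι x))⁻¹ • x, ?_⟩
          rw [map_smul]
          nth_rewrite 2 [h4]
          rw [smul_smul, inv_mul_cancel₀ h5, one_smul]
      · rintro x hx
        rw [mem_singleton_iff] at hx
        subst hx
        constructor
        · simp [hmemC]
        · simp [hmemC]
  have hCclosed : IsClosed C := hDclosed.preimage ι.continuous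
  -- `c + t w` and `-c + t w` are limits of points of `C`
  have happrox : ∀ σ : ℝ, ∀ η > 0, ∃ x ∈ C, ‖ι x - σ • c‖ < η ∧ x ≠ 0 := by
    intro σ η hη
    obtain ⟨t, ht0, htη⟩ : ∃ t : ℝ, 0 < t ∧ t * ‖w‖ < η := by
      refine ⟨η / (2 * (‖w‖ + 1)), by positivity, ?_⟩
      rw [div_mul_eq_mul_div, div_lt_iff₀ (by positivity)]
      nlinarith [norm_nonneg w]
    set z : Y := σ • c + t • w with hz
    have hzint : ‖z - g z • c‖ < M * f z := by
      have e1 : z - g z • c = t • (w - g w • c) := by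
        rw [hz, map_add, map_smul, map_smul, hgc, smul_eq_mul, mul_one, smul_eq_mul, smul_sub,
          smul_smul, add_smul]
        abel
      have e2 : f z = t := by
        rw [hz, map_add, map_smul, map_smul, hfc, hfw, smul_eq_mul, smul_eq_mul]
        ring
      rw [e1, e2, norm_smul, Real.norm_of_nonneg ht0.le, hM]
      nlinarith [norm_nonneg (w - g w • c)]
    have hopen1 : IsOpen {x : Y | ‖x - g x • c‖ < M * f x} :=
      isOpen_lt (by fun_prop) (by fun_prop)
    have hopen2 : IsOpen {x : Y | ‖x - σ • c‖ < η} :=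
      isOpen_lt (by fun_prop) continuous_const
    have hopen : IsOpen {x : Y | ‖x - g x • c‖ < M * f x ∧ ‖x - σ • c‖ < η} :=
      hopen1.inter hopen2
    have hzmem : z ∈ {x : Y | ‖x - g x • c‖ < M * f x ∧ ‖x - σ • c‖ < η} := by
      refine ⟨hzint, ?_⟩
      have : z - σ • c = t • w := by rw [hz]; abel
      rw [this, norm_smul, Real.norm_of_nonneg ht0.le]
      exact htη
    obtain ⟨x, hx⟩ := hιd.exists_mem_open hopen ⟨z, hzmem⟩
    refine ⟨x, hx.1.le, hx.2, ?_⟩
    rintro rfl
    have := hx.1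
    simp at this
  refine ⟨C, hCcone, hCclosed, ?_, ?_, ?_⟩
  · intro hC0
    obtain ⟨x, hx, -, hx0⟩ := happrox 0 1 one_pos
    rw [hC0] at hx
    exact hx0 hx
  · -- weak separation
    refine weaklySeparated_of_pair (M • (f.comp ι.toContinuousLinearMap))
      (‖c‖ • (g.comp ι.toContinuousLinearMap)) fun x hx => ?_
    rw [hmemC] at hx
    calc ‖x‖ = ‖ι x‖ := (ι.norm_map x).symm
      _ = ‖(ι x - g (ι x) • c) + g (ι x) • c‖ := by congr 1; abel
      _ ≤ ‖ι x - g (ι x) • c‖ + ‖g (ι x) • c‖ := norm_add_le _ _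
      _ ≤ M * f (ι x) + ‖c‖ * |g (ι x)| := by
          rw [norm_smul, Real.norm_eq_abs, mul_comm |g (ι x)|]
          linarith
      _ ≤ |M * f (ι x)| + |‖c‖ * g (ι x)| := by
          rw [abs_mul ‖c‖, abs_norm]
          gcongr
          exact le_abs_self _
  · intro hbb
    obtain ⟨h, δ, hδ, hh⟩ := exists_functional_of_boundedBase hbb
    -- choose a small parameter
    obtain ⟨η, hη0, hη⟩ : ∃ η : ℝ, 0 < η ∧ ‖h‖ * (2 * η) + 2 * δ * η < 2 * δ * ‖c‖ := by
      refine ⟨δ * ‖c‖ / (2 * (‖h‖ + δ)), by positivity, ?_⟩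
      have hpos : 0 < ‖h‖ + δ := by positivity
      have : ‖h‖ * (2 * (δ * ‖c‖ / (2 * (‖h‖ + δ)))) + 2 * δ * (δ * ‖c‖ / (2 * (‖h‖ + δ)))
          = δ * ‖c‖ := by
        field_simp
      rw [this]
      nlinarith [mul_pos hδ hnc]
    obtain ⟨x, hxC, hx, -⟩ := happrox 1 η hη0
    obtain ⟨y, hyC, hy, -⟩ := happrox (-1) η hη0
    have hsum : ‖x + y‖ ≤ 2 * η := by
      calc ‖x + y‖ = ‖ι (x + y)‖ := (ι.norm_map _).symm
        _ = ‖(ι x - (1 : ℝ) • c) + (ι y - (-1 : ℝ) • c)‖ := by
            congr 1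
            rw [map_add, one_smul, neg_smul, one_smul]
            abel
        _ ≤ ‖ι x - (1 : ℝ) • c‖ + ‖ι y - (-1 : ℝ) • c‖ := norm_add_le _ _
        _ ≤ 2 * η := by linarith
    have hnx : ‖c‖ - η ≤ ‖x‖ := by
      have h1 : ‖c‖ ≤ ‖ι x‖ + ‖ι x - (1 : ℝ) • c‖ := by
        calc ‖c‖ = ‖ι x - (ι x - (1 : ℝ) • c)‖ := by congr 1; rw [one_smul]; abel
          _ ≤ _ := norm_sub_le _ _
      rw [ι.norm_map] at h1
      linarith
    have hny : ‖c‖ - η ≤ ‖y‖ := by
      have h1 : ‖c‖ ≤ ‖ι y‖ + ‖ι y - (-1 : ℝ) • c‖ := by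
        calc ‖c‖ = ‖(ι y - (-1 : ℝ) • c) - ι y‖ := by
              congr 1; rw [neg_smul, one_smul]; abel
          _ ≤ ‖ι y - (-1 : ℝ) • c‖ + ‖ι y‖ := norm_sub_le _ _
          _ = _ := add_comm _ _
      rw [ι.norm_map] at h1
      linarith
    have h1 : δ * (‖x‖ + ‖y‖) ≤ ‖h‖ * (2 * η) := by
      calc δ * (‖x‖ + ‖y‖) = δ * ‖x‖ + δ * ‖y‖ := by ring
        _ ≤ h x + h y := add_le_add (hh x hxC) (hh y hyC)
        _ = h (x + y) := (map_add h x y).symm
        _ ≤ ‖h (x + y)‖ := le_abs_self _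
        _ ≤ ‖h‖ * ‖x + y‖ := h.le_opNorm _
        _ ≤ ‖h‖ * (2 * η) := by gcongr
    have h2 : δ * (2 * ‖c‖ - 2 * η) ≤ δ * (‖x‖ + ‖y‖) := by
      gcongr
      linarith
    nlinarith

end General

/-- An incomplete normed space: the finitely supported sequences inside `ℓ²`. -/
lemma exists_incomplete :
    ∃ (X : Type) (_ : NormedAddCommGroup X) (_ : NormedSpace ℝ X), ¬ CompleteSpace X := by
  let E := lp (fun _ : ℕ => ℝ) 2
  let p : Submodule ℝ E :=
    { carrier := {x | (Function.support (x : ℕ → ℝ)).Finite}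
      add_mem' := by
        intro x y hx hy
        refine (hx.union hy).subset ?_
        rw [lp.coeFn_add]
        exact Function.support_add _ _
      zero_mem' := by
        change (Function.support ((0 : E) : ℕ → ℝ)).Finite
        rw [lp.coeFn_zero]
        simp only [Function.support_zero]
        exact Set.finite_empty
      smul_mem' := by
        intro t x hx
        refine hx.subset ?_
        rw [lp.coeFn_smul]
        exact Function.support_const_smul_subset _ _ }
  refine ⟨p, inferInstance, inferInstance, fun hcomp => ?_⟩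
  have hclosed : IsClosed (p : Set E) := by
    have : IsComplete (p : Set E) := completeSpace_coe_iff_isComplete.1 hcomp
    exact this.isClosed
  have hx : Memℓp (fun n : ℕ => ((1 : ℝ) / 2) ^ n) 2 := by
    apply memℓp_gen
    have : Summable fun n : ℕ => ((1 : ℝ) / 4) ^ n :=
      summable_geometric_of_lt_one (by norm_num) (by norm_num)
    refine this.congr fun n => ?_
    rw [Real.norm_of_nonneg (by positivity)]
    simp only [ENNReal.toReal_ofNat, Real.rpow_ofNat]
    rw [← pow_mul, mul_comm n 2, pow_mul]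
    norm_num
  let x : E := ⟨_, hx⟩
  have hsum := lp.hasSum_single (p := 2) (by norm_num) x
  have hmem : x ∈ (p : Set E) := by
    refine hclosed.mem_of_tendsto hsum (Eventually.of_forall fun s => ?_)
    refine Submodule.sum_mem _ fun i _ => ?_
    change (Function.support _).Finite
    refine (Set.finite_singleton i).subset ?_
    intro j hj
    by_contra hji
    apply hj
    simp only [mem_singleton_iff] at hji
    exact lp.single_apply_ne _ _ _ hji
  have h1 : (Function.support (x : ℕ → ℝ)).Finite := hmem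
  have h2 : Function.support (x : ℕ → ℝ) = univ := by
    ext n
    simp only [Function.mem_support, mem_univ, iff_true]
    change ((1 : ℝ) / 2) ^ n ≠ 0
    positivity
  rw [h2] at h1
  exact Set.infinite_univ h1

/-- **Answer to Gong's question.**  There is a real normed space with a closed cone `C ≠ {0}`
which satisfies `(∗)` and has no bounded base; and, more precisely, a real normed space `X`
contains such a cone if and only if `X` is not complete. -/
theorem result :
    (∃ (X : Type) (_ : NormedAddCommGroup X) (_ : NormedSpace ℝ X) (C : Set X),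
      IsPointedCone C ∧ C ≠ {0} ∧ IsClosed C ∧ WeaklySeparated C ∧ ¬ HasBoundedBase C) ∧
    ∀ (X : Type u) [NormedAddCommGroup X] [NormedSpace ℝ X],
      (∃ C : Set X,
        IsPointedCone C ∧ C ≠ {0} ∧ IsClosed C ∧ WeaklySeparated C ∧ ¬ HasBoundedBase C) ↔
      ¬ CompleteSpace X := by
  refine ⟨?_, ?_⟩
  · obtain ⟨X, i1, i2, hX⟩ := exists_incomplete
    obtain ⟨C, h1, h2, h3, h4, h5⟩ := exists_bad_cone hX
    exact ⟨X, i1, i2, C, h1, h3, h2, h4, h5⟩
  · intro X _ _
    constructor
    · rintro ⟨C, h1, h2, h3, h4, h5⟩ hcomp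
      obtain ⟨f, δ, hδ, hf⟩ := exists_functional_of_complete h1 h3 h4
      exact h5 (boundedBase_of_functional h1 h2 f hδ hf)
    · intro hX
      obtain ⟨C, h1, h2, h3, h4, h5⟩ := exists_bad_cone hX
      exact ⟨C, h1, h3, h2, h4, h5⟩

end Pool.Agent.Results.MP_388f8c_an.ClosedConeAnswer
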